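import Pool.Agent.Helper77.SD.St

/-!
# Project SD (MP_93a5ff_an): modules EXP and GAM (helper23)
-/

set_option autoImplicit false

namespace Pool.Agent.Helper23.SD

open MeasureTheory Pool.Agent.Helper77.SD

theorem hEXP : StEXP := by
  intro d
  have h1 : Integrable (fun x : E d => ((d + 1).factorial * Real.exp 1 : ℝ) *
      (1 + ‖x‖) ^ (-((d + 1 : ℕ) : ℝ))) volume := by
    apply Integrable.const_mul
    apply integrable_one_add_norm
    rw [finrank_euclideanSpace, Fintype.card_fin]
    push_cast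
    linarith
  refine h1.mono' ?_ (Filter.Eventually.of_forall fun x => ?_)
  · exact (Real.continuous_exp.comp continuous_norm.neg).aestronglyMeasurable
  · have hx : (0 : ℝ) ≤ ‖x‖ := norm_nonneg x
    have hp : (0 : ℝ) < (1 + ‖x‖) ^ (d + 1) := by positivity
    have h2 := Real.pow_div_factorial_le_exp (1 + ‖x‖) (by positivity) (d + 1)
    rw [div_le_iff₀ (by positivity), Real.exp_add] at h2
    rw [Real.norm_eq_abs, abs_of_pos (Real.exp_pos _), Real.rpow_neg (by positivity),
      Real.rpow_natCast, ← div_eq_mul_inv, le_div_iff₀ hp, Real.exp_neg,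
      ← div_eq_inv_mul, div_le_iff₀ (Real.exp_pos _)]
    calc (1 + ‖x‖) ^ (d + 1) ≤ Real.exp 1 * Real.exp ‖x‖ * ((d + 1).factorial : ℝ) := h2
      _ = (d + 1).factorial * Real.exp 1 * Real.exp ‖x‖ := by ring

theorem hGAM : StGAM := by
  intro γ C hγ
  have hC0 : 0 ≤ max C 0 := le_max_right _ _
  have hCC : C ≤ max C 0 := le_max_left _ _
  set C' := max C 0 with hC'
  set R : ℝ := C' ^ (1 / (γ - 1)) with hR
  have hγ1 : 0 < γ - 1 := by linarith
  have hR0 : 0 ≤ R := Real.rpow_nonneg hC0 _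
  have hRp : R ^ (γ - 1) = C' := by
    rw [hR, ← Real.rpow_mul hC0, one_div, inv_mul_cancel₀ hγ1.ne', Real.rpow_one]
  refine ⟨Real.exp (C' * R), Real.exp_pos _, fun r hr => ?_⟩
  rw [← Real.exp_add]
  apply Real.exp_le_exp.2
  rcases le_total R r with h | h
  · -- `C' r ≤ r ^ γ`
    have h1 : C' ≤ r ^ (γ - 1) := by
      rw [← hRp]
      exact Real.rpow_le_rpow hR0 h hγ1.le
    have h2 : r ^ γ = r ^ (γ - 1) * r := by
      rcases hr.eq_or_lt with h0 | h0
      · rw [← h0, Real.zero_rpow (by linarith), mul_zero]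
      · rw [Real.rpow_sub_one h0.ne']
        field_simp
    have h3 : C' * r ≤ r ^ γ := by
      rw [h2]
      exact mul_le_mul_of_nonneg_right h1 hr
    have h4 : C * r ≤ C' * r := mul_le_mul_of_nonneg_right hCC hr
    have h5 : 0 ≤ C' * R := mul_nonneg hC0 hR0
    linarith
  · have h1 : 0 ≤ r ^ γ := Real.rpow_nonneg hr _
    have h2 : C * r ≤ C' * R :=
      (mul_le_mul_of_nonneg_right hCC hr).trans (mul_le_mul_of_nonneg_left h hC0)
    linarith

end Pool.Agent.Helper23.SD
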